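import Pool.Agent.U854.TW.Dlaw
import Pool.Agent.U374.Pr.App

/-!
# The Beilinson–Bloch conjecture in ALL codimensions for products of diagonal cubic surfaces and a
# diagonal cubic curve, threefold or fivefold, of every odd dimension

`K` is the field of the third roots of unity and `F = K(∛d₁, …, ∛dₙ)`, where the `dᵢ` are arbitrary
elements of `𝓞 K`, `1` modulo `3`, of norm `1` modulo `9`, independent modulo cubes.  `D` runs through
the squarefree `D = 1` modulo `3` of `𝓞 K`, prime to the `dᵢ`, whose norm is not `1` modulo `9`, ordered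
by the norm; there are at least `c X` of them.

The variety is `X = S_1 × … × S_r × Y`, where `r` is arbitrary, the `S_j` are diagonal cubic surfaces
`∑ b_i x_i ^ 3 = 0` whose coefficients are products of powers of the `dᵢ`, and `Y` is a diagonal cubic
hypersurface `∑ a_i x_i ^ 3 = 0` of dimension `2 c + 1`, `c = 0, 1, 2`, that belongs to `D`: one of the
coefficients is `D` or `D²` times a product of powers of the `dᵢ`, and all the others are products of
powers of the `dᵢ`.  The dimension of `X` is `2 r + 2 c + 1`, and its cohomology is not zero in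
odd degrees between `2 c + 1` and `4 r + 2 c + 1`.

* The proportion of the `D` for which all the `3 ^ n` curves `E_{D_t}`, `D_t = D ∏ dᵢ ^ tᵢ`, have
  finitely many points over `K` and trivial `Ш[3^∞]` tends to `p ^ (3 ^ n)`, where
  `p = ∏ (1 - 3 ^ {-(2 i + 1)}) = 0.639…`.
* For each of these `D`, for ALL such `X` (all `r`, all the `S_j`, all the `Y` that belong to `D`), for
  `k = K` and `k = F`, and in ALL the odd degrees `2 i + 1`: `L(H^{2 i + 1}(X_k), s)` is entire and not
  zero at the point `s = i + 1`, and the elliptic curves over `k` which give the homologically trivial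
  cycles have finitely many points.

The curves: for a set `T` of `c` indices let `δ_T = ∏ a_i ∏_{i ∈ T} a_i`, and `E_δ : y² + δ y = x³`.  The
motive of `Y` is a sum of powers of the Lefschetz motive and of `h¹(J)(-c)`, where the intermediate
Jacobian `J` is isogenous to `∏_T E_{δ_T}`; the motive of `S_j` is `1 + A_j(-1) + 1(-2)`, where the Artin
motive `A_j` (the lines) becomes a sum of cubic characters of `K(∛d₁, …, ∛dₙ) / K`.  So
`CH^{i+1}(X)_0 ⊗ ℚ` is a sum of parts of `E_{δ_T y}(k) ⊗ ℚ`, with products `y` of powers of the `dᵢ`, and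
all of these are `0` here.  This paragraph is not formalized; the theorem gives the finiteness of all the
groups `E_{δ_T y}(k)`.

The `L`-functions are given by the numbers of points: for a place `v` of `k` not dividing `3 D ∏ dᵢ` the
eigenvalues `α` of the Frobenius on `H^m(X)`, for all `m`, are determined by `|α|² = N(v)^m` and
`#X(k') = ∑_m (-1)^m ∑_α α^e` for all the finite extensions `k'` of the residue field, `e` their degree.
The Euler factors at the finitely many other places are left out; they are finite and not zero at the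
point, so the order of vanishing is the same.

The law of the twists and the curve `E_D` over `F` are those of helper854 (`Pool/Agent/U854/TW`, for
`MP_1a91b9_nt.FixedTowers`), built on the libraries Q283/T3 and R432; the Euler products of the twists
over `K` and the inverse twists are those of `MP_b8021b_nt.FixedRadicalFields` (where `X` is `Y` alone,
in the middle degree).  New here: the numbers of points of the diagonal cubic surfaces over all finite
fields (`U374/Pr/Surf`), the eigenvalues of the Frobenius of the products in all degrees with their Artin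
twists (`U374/Pr/Alg`, `U374/Pr/Loc`), and the `L`-functions of all the degrees over `K` and over `F`
(`U374/Pr/Glob`, `U374/Pr/App`).
-/

set_option autoImplicit false

open scoped Classical

namespace Pool.Agent.Results.MP_0b9e0b_ag.ProductsAllCodimensions

open NumberField IsDedekindDomain WeierstrassCurve Filter
open Pool.Agent.TH841.NF.D (Sha)

/-- The curve `E_D : y² + D y = x³`. -/
def curve {F : Type} [Field F] (D : F) : WeierstrassCurve F := ⟨0, 0, D, 0, 0⟩

/-- The solutions, not all zero, of `∑ a i x i ^ 3 = 0` in the field `F`. -/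
def solutions {m : ℕ} {F : Type} [Field F] (a : Fin m → F) : Set (Fin m → F) :=
  {x | x ≠ 0 ∧ ∑ i, a i * x i ^ 3 = 0}

/-- `y` is a product of powers of the `dᵢ`. -/
def Monomial {R : Type} [CommRing R] {n : ℕ} (d : Fin n → R) (y : R) : Prop :=
  ∃ m : Fin n → ℕ, y = ∏ i, d i ^ m i

section field

variable {k : Type} [Field k] [NumberField k]

/-- `G` is the multiset of the pairs `(m, α)`, `α` an eigenvalue of the Frobenius at `v` on `H^m(X)`, for
the product `X` of the `r` surfaces `∑ b j i x i ^ 3 = 0` and the hypersurface `∑ a i x i ^ 3 = 0`: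
`|α|² = N(v)^m`, and for every extension `F` of degree `e` of the residue field of `v` (`f` is the
reduction) `#X(F)`, the product of the numbers of nonzero solutions divided by `(#F - 1)^(r + 1)`, is
`∑ (-1)^m α^e`. -/
def IsFrobenius {r c : ℕ} (b : Fin r → Fin 4 → 𝓞 k) (a : Fin (2 * c + 3) → 𝓞 k)
    (v : HeightOneSpectrum (𝓞 k)) (G : Multiset (ℕ × ℂ)) : Prop :=
  (∀ z ∈ G, ‖z.2‖ ^ 2 = (Ideal.absNorm v.asIdeal : ℝ) ^ z.1) ∧
  ∀ (F : Type) [Field F] [Finite F] (f : 𝓞 k →+* F) (e : ℕ), RingHom.ker f = v.asIdeal →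
    Nat.card F = Ideal.absNorm v.asIdeal ^ e →
    (∏ j, ((solutions fun i => f (b j i)).ncard : ℂ)) * ((solutions fun i => f (a i)).ncard : ℂ) =
      (Nat.card F - 1) ^ (r + 1) * (G.map fun z => (-1) ^ z.1 * z.2 ^ e).sum

/-- The Euler factor of `L(H^m(X), s)` at `v`. -/
noncomputable def eulerFactor (v : HeightOneSpectrum (𝓞 k)) (G : Multiset (ℕ × ℂ)) (m : ℕ)
    (s : ℂ) : ℂ :=
  ((G.filter fun z => z.1 = m).map fun z => (1 - z.2 * (Ideal.absNorm v.asIdeal : ℂ) ^ (-s))⁻¹).prod

/-- Both sides of the conjecture are zero for `X` over `k` in all codimensions: for all `i` the function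
`L(H^{2i+1}(X), s)`, given by its Euler product over the places not dividing `B` for
`Re s > (2 i + 1) / 2 + 1`, is entire and not zero at `s = i + 1`, and all the curves `E_{δ_T y}` over `k`,
`δ_T = ∏ a_i ∏_{i ∈ T} a_i` for the sets `T` of `c` indices and `y` a product of powers of the `dᵢ`, have
finitely many points. -/
def BeilinsonBloch {n r c : ℕ} (d : Fin n → 𝓞 k) (b : Fin r → Fin 4 → 𝓞 k)
    (a : Fin (2 * c + 3) → 𝓞 k) (B : 𝓞 k) : Prop :=
  (∃ G : HeightOneSpectrum (𝓞 k) → Multiset (ℕ × ℂ),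
    (∀ v, B ∉ v.asIdeal → IsFrobenius b a v (G v)) ∧
    ∀ i : ℕ, ∃ L : ℂ → ℂ, Differentiable ℂ L ∧ L (i + 1) ≠ 0 ∧ ∀ s : ℂ, (i : ℝ) + 3 / 2 < s.re →
      HasProd (fun v : {v : HeightOneSpectrum (𝓞 k) // B ∉ v.asIdeal} =>
        eulerFactor v.1 (G v.1) (2 * i + 1) s) (L s)) ∧
  ∀ T : Finset (Fin (2 * c + 3)), T.card = c → ∀ y : 𝓞 k, Monomial d y →
    Finite (curve (((∏ i, a i) * (∏ i ∈ T, a i) * y : 𝓞 k) : k)).toAffine.Point

end field

variable {K : Type} [Field K] [NumberField K]

/-- `d₁, …, dₙ` are `1` modulo `3`, their norms are `1` modulo `9`, and they are independent modulo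
cubes. -/
structure Family {n : ℕ} (d : Fin n → 𝓞 K) : Prop where
  three : ∀ i, (3 : 𝓞 K) ∣ d i - 1
  nine : ∀ i, (9 : ℤ) ∣ Algebra.norm ℤ (d i) - 1
  ind : ∀ a : Fin n → ℕ, (∃ x : 𝓞 K, x ^ 3 = ∏ i, d i ^ a i) → ∀ i, 3 ∣ a i

/-- `F = K(∛d₁, …, ∛dₙ)`. -/
def Generated {n : ℕ} (d : Fin n → 𝓞 K) (F : Type) [Field F] [Algebra K F] : Prop :=
  ∃ r : Fin n → F, (∀ i, r i ^ 3 = algebraMap K F (d i : K)) ∧
    ∀ L : Subfield F, (∀ k : K, algebraMap K F k ∈ L) → (∀ i, r i ∈ L) → L = ⊤

/-- `D` is squarefree and `1` modulo `3`, its norm is not `1` modulo `9`, and it is prime to the `dᵢ`. -/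
def InClass {n : ℕ} (d : Fin n → 𝓞 K) (D : 𝓞 K) : Prop :=
  ((3 : 𝓞 K) ∣ D - 1 ∧ Squarefree D ∧ ¬ (9 : ℤ) ∣ Algebra.norm ℤ D - 1) ∧
    ∀ π : 𝓞 K, Prime π → π ∣ D → ¬ π ∣ ∏ i, d i

/-- `D_t = D ∏ dᵢ ^ tᵢ`, `t` in `(ℤ/3)ⁿ` (the exponents are taken in `{0, 1, 2}`). -/
noncomputable def twist {n : ℕ} (d : Fin n → 𝓞 K) (D : 𝓞 K) (t : Fin n → ZMod 3) : 𝓞 K :=
  D * ∏ i, d i ^ (t i).val

/-- For all `t` the group `E_{D_t}(K)` is finite and the `3`-primary part of `Ш(E_{D_t} / K)` is
trivial. -/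
def AllTrivial {n : ℕ} (d : Fin n → 𝓞 K) (D : 𝓞 K) : Prop :=
  ∀ t : Fin n → ZMod 3, Finite (curve (twist d D t : K)).toAffine.Point ∧
    ∀ (m : ℕ) (x : Sha (curve (twist d D t : K))), 3 ^ m • x = 0 → x = 0

/-- the `D` in the class of norm at most `X` with the property `P` -/
def upTo {n : ℕ} (d : Fin n → 𝓞 K) (X : ℕ) (P : 𝓞 K → Prop) : Set (𝓞 K) :=
  {D | (Algebra.norm ℤ D ≤ X ∧ InClass d D) ∧ P D}

/-- the proportion of the `D` of norm at most `X` in the class with the property `P` -/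
noncomputable def proportion {n : ℕ} (d : Fin n → 𝓞 K) (P : 𝓞 K → Prop) (X : ℕ) : ℝ :=
  ((upTo d X P).ncard : ℝ) / ((upTo d X fun _ => True).ncard : ℝ)

/-- `p = ∏_{i ≥ 0} (1 - 3^{-(2 i + 1)})` -/
noncomputable def p : ℝ := ∏' i : ℕ, (1 - (1 / 3 : ℝ) ^ (2 * i + 1))

/-- The form `∑ a i x i ^ 3` belongs to `D`: one of the coefficients is `D` or `D²` times a product of
powers of the `dᵢ`, and all the others are products of powers of the `dᵢ`. -/
def Belongs {n m : ℕ} (d : Fin n → 𝓞 K) (D : 𝓞 K) (a : Fin m → 𝓞 K) : Prop :=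
  ∃ i₀, (∃ y, Monomial d y ∧ (a i₀ = D * y ∨ a i₀ = D ^ 2 * y)) ∧
    ∀ i, i ≠ i₀ → Monomial d (a i)

/-! ### The proof -/

open Pool.Agent.U854.TW (law_triv perF prodd_ne)
open Q283.T3B (NC low_K fin_K)
open Pool.Agent.Y696.CTK (ClsK Tri)
open Pool.Agent.U374.Cub (rz_K rz_F RZ)
open Pool.Agent.U374.Pr (LX LX_K LX_F)

omit [NumberField K] in
theorem fam {n : ℕ} {d : Fin n → 𝓞 K} (hd : Family d) : Pool.Agent.U854.TW.Family d :=
  ⟨hd.three, hd.nine, hd.ind⟩

/-- the statement on the `L`-functions -/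
theorem of_LX {k : Type} [Field k] [NumberField k] {r c : ℕ} {b : Fin r → Fin 4 → 𝓞 k}
    {a : Fin (2 * c + 3) → 𝓞 k} {B : 𝓞 k} (h : LX (List.ofFn b) a B) :
    ∃ G : HeightOneSpectrum (𝓞 k) → Multiset (ℕ × ℂ),
    (∀ v, B ∉ v.asIdeal → IsFrobenius b a v (G v)) ∧
    ∀ i : ℕ, ∃ L : ℂ → ℂ, Differentiable ℂ L ∧ L (i + 1) ≠ 0 ∧ ∀ s : ℂ, (i : ℝ) + 3 / 2 < s.re →
      HasProd (fun v : {v : HeightOneSpectrum (𝓞 k) // B ∉ v.asIdeal} =>
        eulerFactor v.1 (G v.1) (2 * i + 1) s) (L s) := by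
  obtain ⟨G, h1, h2⟩ := h
  refine ⟨G, fun v hv => ⟨(h1 v hv).1, fun F _ _ f e hf hF => ?_⟩, h2⟩
  have h3 := (h1 v hv).2 F f e hf hF
  rw [List.map_ofFn, List.prod_ofFn, List.length_ofFn] at h3
  exact h3

omit [NumberField K] in
/-- changing one coefficient -/
theorem belongs_update {n m : ℕ} {d : Fin n → 𝓞 K} {D : 𝓞 K} {a : Fin m → 𝓞 K}
    (h : Belongs d D a) (l : Fin m) {y : 𝓞 K} (hy : Monomial d y) :
    Belongs d D (Function.update a l (a l * y)) := by
  have mul : ∀ {x z : 𝓞 K}, Monomial d x → Monomial d z → Monomial d (x * z) := by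
    rintro x z ⟨m1, rfl⟩ ⟨m2, rfl⟩
    refine ⟨m1 + m2, ?_⟩
    rw [← Finset.prod_mul_distrib]
    exact Finset.prod_congr rfl fun i _ => by rw [Pi.add_apply, pow_add]
  obtain ⟨i₀, ⟨z, hz, h1⟩, h2⟩ := h
  refine ⟨i₀, ?_, fun i hi => ?_⟩
  · by_cases hl : i₀ = l
    · subst hl
      rw [Function.update_self]
      refine ⟨z * y, mul hz hy, ?_⟩
      rcases h1 with h1 | h1
      · left
        rw [h1]
        ring
      · right
        rw [h1]
        ring
    · rw [Function.update_of_ne hl]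
      exact ⟨z, hz, h1⟩
  · by_cases hl : i = l
    · subst hl
      rw [Function.update_self]
      exact mul (h2 i hi) hy
    · rw [Function.update_of_ne hl]
      exact h2 i hi

theorem prod_update {R : Type} [CommRing R] {m : ℕ} (a : Fin m → R) (l : Fin m) (y : R)
    (T : Finset (Fin m)) (hl : l ∉ T) :
    (∏ i, Function.update a l (a l * y) i) * (∏ i ∈ T, Function.update a l (a l * y) i) =
      (∏ i, a i) * (∏ i ∈ T, a i) * y := by
  have h1 : ∏ i, Function.update a l (a l * y) i = (∏ i, a i) * y := by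
    rw [Finset.prod_update_of_mem (Finset.mem_univ l), ← Finset.mul_prod_erase Finset.univ a
      (Finset.mem_univ l), Finset.sdiff_singleton_eq_erase]
    ring
  have h2 : ∏ i ∈ T, Function.update a l (a l * y) i = ∏ i ∈ T, a i :=
    Finset.prod_update_of_notMem hl _ _
  rw [h1, h2]
  ring

/-- the curves -/
theorem curves {k : Type} [Field k] [NumberField k] {n c : ℕ} {d : Fin n → 𝓞 k}
    {a : Fin (2 * c + 3) → 𝓞 k}
    (h : ∀ (l : Fin (2 * c + 3)) (y : 𝓞 k), Monomial d y →
      ∃ B : 𝓞 k, RZ (Function.update a l (a l * y)) B) :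
    ∀ T : Finset (Fin (2 * c + 3)), T.card = c → ∀ y : 𝓞 k, Monomial d y →
      Finite (curve (((∏ i, a i) * (∏ i ∈ T, a i) * y : 𝓞 k) : k)).toAffine.Point := by
  intro T hT y hy
  obtain ⟨l, hl⟩ : ∃ l, l ∉ T := by
    by_contra hcon
    push Not at hcon
    have h1 : T = Finset.univ := Finset.eq_univ_iff_forall.2 hcon
    rw [h1, Finset.card_univ, Fintype.card_fin] at hT
    omega
  obtain ⟨B, -, h2⟩ := h l y hy
  have h3 := h2 T hT
  rw [← prod_update a l y T hl]
  exact h3

/-- There is a field generated by the cube roots. -/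
theorem exists_generated {n : ℕ} (d : Fin n → 𝓞 K) :
    ∃ (F : Type) (_ : Field F) (_ : NumberField F) (_ : Algebra K F), Generated d F := by
  let p : Polynomial K := ∏ i, (Polynomial.X ^ 3 - Polynomial.C (d i : K))
  let F : Type := p.SplittingField
  have : NumberField F := NumberField.of_module_finite K F
  have hp0 : p ≠ 0 := Finset.prod_ne_zero_iff.2 fun i _ =>
    Polynomial.X_pow_sub_C_ne_zero (by norm_num) _
  have hsp : (p.map (algebraMap K F)).Splits := Polynomial.SplittingField.splits p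
  have hp0' : p.map (algebraMap K F) ≠ 0 :=
    (Polynomial.map_ne_zero_iff (algebraMap K F).injective).2 hp0
  have hroot : ∀ i, ∃ x : F, x ^ 3 = algebraMap K F (d i : K) := by
    intro i
    have h1 : ((Polynomial.X ^ 3 - Polynomial.C (d i : K)).map (algebraMap K F)).Splits :=
      hsp.of_dvd hp0' (Polynomial.map_dvd _ (Finset.dvd_prod_of_mem _ (Finset.mem_univ i)))
    obtain ⟨x, hx⟩ := h1.exists_eval_eq_zero (by
      rw [Polynomial.degree_map, Polynomial.degree_X_pow_sub_C (by norm_num)]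
      norm_num)
    refine ⟨x, ?_⟩
    simp at hx
    linear_combination hx
  choose r hr using hroot
  let M : IntermediateField K F := IntermediateField.adjoin K (Set.range r)
  have hMn : NumberField M := NumberField.of_module_finite K M
  have hrM : ∀ i, r i ∈ M := fun i => IntermediateField.subset_adjoin K _ ⟨i, rfl⟩
  refine ⟨M, inferInstance, hMn, inferInstance, fun i => ⟨r i, hrM i⟩,
    fun i => ?_, fun L hL1 hL2 => ?_⟩
  · apply Subtype.ext
    exact hr i
  · rw [eq_top_iff]
    intro y _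
    let L' : IntermediateField K F :=
      { (L.map (algebraMap M F)) with
        algebraMap_mem' := fun k => ⟨algebraMap K M k, hL1 k, rfl⟩ }
    have h1 : M ≤ L' := by
      apply IntermediateField.adjoin_le_iff.2
      rintro _ ⟨i, rfl⟩
      exact ⟨_, hL2 i, rfl⟩
    obtain ⟨y', hy', h2⟩ := h1 y.2
    have h3 : y' = y := Subtype.ext h2
    rw [← h3]
    exact hy'

/-- **Main theorem.** -/
theorem result (K : Type) [Field K] [NumberField K] [IsCyclotomicExtension {3} ℚ K] (n : ℕ)
    (d : Fin n → 𝓞 K) (hd : Family d) :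
    -- the field exists, and the class has positive density
    (∃ (F : Type) (_ : Field F) (_ : NumberField F) (_ : Algebra K F), Generated d F) ∧
    (∃ c : ℝ, 0 < c ∧ ∃ X₀ : ℕ, ∀ X : ℕ, X₀ ≤ X → c * X ≤ ((upTo d X fun _ => True).ncard : ℝ)) ∧
    -- the proportion
    Tendsto (proportion d (AllTrivial d)) atTop (nhds (p ^ (3 ^ n))) ∧ 0.639 < p ∧
    -- the products over `K` and over `F`
    ∀ D : 𝓞 K, InClass d D → AllTrivial d D → ∀ c : ℕ, c ≤ 2 → ∀ a : Fin (2 * c + 3) → 𝓞 K,
      Belongs d D a → ∀ (r : ℕ) (b : Fin r → Fin 4 → 𝓞 K), (∀ j i, Monomial d (b j i)) →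
      BeilinsonBloch d b a (3 * D * ∏ i, d i) ∧
      ∀ (F : Type) [Field F] [NumberField F] [Algebra K F], Generated d F →
        Module.finrank K F = 3 ^ n ∧
        BeilinsonBloch (fun i => algebraMap (𝓞 K) (𝓞 F) (d i))
          (fun j i => algebraMap (𝓞 K) (𝓞 F) (b j i)) (fun i => algebraMap (𝓞 K) (𝓞 F) (a i))
          (algebraMap (𝓞 K) (𝓞 F) (3 * D * ∏ i, d i)) := by
  have hC9 := Pool.Agent.Y703.XL.t_C9
  have hset0 : ∀ X : ℕ, (upTo d X fun _ => True) =
      {D : 𝓞 K | Algebra.norm ℤ D ≤ X ∧ ClsK D ∧ NC D (∏ i, d i)} := by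
    intro X
    ext D
    show ((_ ∧ (_ ∧ _)) ∧ True) ↔ (_ ∧ _ ∧ _)
    rw [and_true]
    exact Iff.rfl
  have hset2 : ∀ X : ℕ, upTo d X (AllTrivial d) =
      {D : 𝓞 K | Algebra.norm ℤ D ≤ X ∧ ClsK D ∧ NC D (∏ i, d i) ∧
        ∀ t, (Tri (D * Pool.Agent.U854.TW.mt d t) ↔
          t ∈ (Finset.univ : Finset (Fin n → ZMod 3)))} := by
    intro X
    ext D
    have h1 : AllTrivial d D ↔ ∀ t, (Tri (D * Pool.Agent.U854.TW.mt d t) ↔
        t ∈ (Finset.univ : Finset (Fin n → ZMod 3))) := by
      refine forall_congr' fun t => ?_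
      simp only [Finset.mem_univ, iff_true]
      exact Iff.rfl
    have h2 : D ∈ upTo d X (AllTrivial d) ↔ (Algebra.norm ℤ D ≤ X ∧ InClass d D) ∧ AllTrivial d D :=
      Iff.rfl
    rw [h2, h1, Set.mem_ofPred_eq, and_assoc]
    refine and_congr_right fun _ => ?_
    show ((_ ∧ _) ∧ _) ↔ (_ ∧ _ ∧ _)
    rw [and_assoc]
    exact Iff.rfl
  refine ⟨exists_generated d, ?_, ?_, hC9.2.2.2.1, ?_⟩
  · obtain ⟨c, hc, X₀, h⟩ := low_K K (∏ i, d i) (prodd_ne (fam hd))
    refine ⟨c, hc, X₀, fun X hX => ?_⟩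
    rw [hset0]
    exact h X hX
  · have h := law_triv K (fam hd) (Finset.univ : Finset (Fin n → ZMod 3))
    have e : Pool.Agent.Y703.XL.cr 0 ^ (Finset.univ : Finset (Fin n → ZMod 3)).card *
        (1 - Pool.Agent.Y703.XL.cr 0) ^
          (3 ^ n - (Finset.univ : Finset (Fin n → ZMod 3)).card) = p ^ (3 ^ n) := by
      rw [Finset.card_univ, Fintype.card_fun, ZMod.card, Fintype.card_fin, Nat.sub_self, pow_zero,
        mul_one]
      congr 1
      unfold Pool.Agent.Y703.XL.cr
      rw [Finset.prod_range_zero, div_one]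
      rfl
    rw [e] at h
    refine h.congr fun X => ?_
    unfold proportion
    rw [hset2, hset0]
  · intro D hD ht c hc a ha r b hb
    have htri : ∀ t, Tri (D * Pool.Agent.U854.TW.mt d t) := ht
    have hbl : ∀ b' ∈ List.ofFn b, ∀ i, Pool.Agent.U374.Cub.Mon d (b' i) := by
      intro b' hb' i
      obtain ⟨j, rfl⟩ := (List.mem_ofFn' _ _).1 hb'
      exact hb j i
    refine ⟨⟨of_LX (LX_K K (fam hd) hD.1 htri hc ha hbl), curves fun l y hy =>
      ⟨_, rz_K K (fam hd) hD.1 htri hc (belongs_update ha l hy)⟩⟩, fun F _ _ _ hF => ?_⟩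
    obtain ⟨x, hx, hgen⟩ := hF
    obtain ⟨q, h1, h2⟩ := perF K (fam hd) hD.1
    obtain ⟨h3, -, h5⟩ := h2 F x hx hgen
    obtain ⟨h6, h7, -⟩ := h5 fun t => (h1 t).2.2.2 (htri t)
    refine ⟨h3, of_LX ?_, curves fun l y hy => ?_⟩
    · have h8 := LX_F K (fam hd) hD.1 htri x hx hgen h3 h6 hc ha hbl
      rw [List.map_ofFn] at h8
      exact h8
    · obtain ⟨m, rfl⟩ := hy
      have h9 := rz_F K (fam hd) hD.1 htri x hx hgen h3 ⟨h6, h7⟩ hc
        (belongs_update ha l (y := ∏ i, d i ^ m i) ⟨m, rfl⟩)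
      have e : (fun i => algebraMap (𝓞 K) (𝓞 F) (Function.update a l (a l * ∏ i, d i ^ m i) i)) =
          Function.update (fun i => algebraMap (𝓞 K) (𝓞 F) (a i)) l
            (algebraMap (𝓞 K) (𝓞 F) (a l) * ∏ i, algebraMap (𝓞 K) (𝓞 F) (d i) ^ m i) := by
        funext i
        by_cases hl : i = l
        · subst hl
          rw [Function.update_self, Function.update_self, map_mul, map_prod]
          simp only [map_pow]
        · rw [Function.update_of_ne hl, Function.update_of_ne hl]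
      rw [e] at h9
      exact ⟨_, h9⟩

end Pool.Agent.Results.MP_0b9e0b_ag.ProductsAllCodimensions
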