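import Pool.Agent.U173.TT.CM

/-!
# Abelian varieties of CM type over number fields: the relations between the CM types decide exactly
# which products have exotic Tate classes, and one explicit power decides for all

Let `A 1, …, A n` be simple abelian varieties over a number field `k`, with complex multiplication over `k`
by CM fields `E i`, with CM types `Φ i`, and no two of them isogenous over the complex numbers (`Separated`:
different embeddings of the `E i` are separated by the types and the automorphisms of `ℂ`). Let `g` be the
sum of the dimensions. The Galois group `Γ` of `k` (containing the conjugates of the `E i`) acts on the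
`ℓ`-adic Tate module of `∏ A i`, free of rank one over `ℚ_ℓ ⊗ ∏ E i`, through a homomorphism `ρ`, `χ` is the
cyclotomic character; the properties of `(ρ, χ)` that are used are listed in `IsCMRepresentation`
(`Pool/Agent/N90/CZ/Defs.lean`, continuity and Frobenius elements by Weil, Shimura-Taniyama, Chebotarev).
Tate classes and products of classes of divisors are defined in `Pool/Agent/U173/TT/DefsCM.lean`. A product `A 1 ^ m₁ × ⋯ × A n ^ mₙ` is
given by a map `t : J → ι` with `mᵢ = mul t i` preimages of `i`.

A type relation (`IsTypeRelation`) is a system of integers `n i φ`, `φ` the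
complex embeddings of `E i`, with `n i (conjugate φ) = - n i φ`, such that for each automorphism `σ` of `ℂ` the sum
of the `n i φ` over all `(i, φ)` with `σ ∘ φ ∈ Φ i` is zero.

1. **Exact criterion.** The following are equivalent: (a) there is no type relation besides zero with
   `|n i φ| ≤ mᵢ` for all `i` and `φ`; (b) all Tate classes on `A 1 ^ m₁ × ⋯ × A n ^ mₙ`, over all finite
   extensions of `k` and in all degrees, are linear combinations of products of classes of divisors; (c) all
   Tate classes on the reduction of this product at a place of degree one (where it has good ordinary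
   reduction, with Frobenius endomorphism `π`), over all finite extensions of the residue field `𝔽_p`, are
   linear combinations of products of classes of divisors; (d) all Hodge classes on the complex abelian
   variety `A 1 ^ m₁ × ⋯ × A n ^ mₙ` are generated by classes of divisors. The equivalence holds for all `k`,
   all `ℓ` and all such places (`TateIff`, `ReductionIff`).
2. **Short relations.** Let `(g - 1) ^ (g - 1) < 4 ^ (g - 2) (N + 1) ^ 2`, that is, for `g ≥ 2`,
   `N + 1 > 2 ^ (2 - g) (g - 1) ^ ((g - 1) / 2)` (so `N = 1` for `g ≤ 4`, `N = 2` for `g = 5`, `N = 3` for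
   `g = 6`, `N = 6` for `g = 7`, and always `N < g ^ (g / 2)`). If there is a type relation besides zero,
   there is one with all `|n i φ| ≤ N`.
3. **One power decides.** So if all Tate classes on one product in which every factor occurs at least `N`
   times are generated by divisors, for one number field and one `ℓ`, then this is true for all products of
   powers of the `A i`, all number fields and all `ℓ`, and the Tate conjecture holds for them.

The library (`N90`: `HG`, `UB`, `TD`, `CZ`) has the comparison of Hodge and Tate classes, short relations
over a splitting field and the two parts of the criterion for Hodge classes over a splitting field. New here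
(`U173/TT`): the exact criteria and the short relations in intrinsic form, and 3 over number fields. (For
powers of one `A` exotic classes can appear exponentially late:
`Results.MP_7b53ad_ag.LateExoticPowersOverNumberFields` of the starting files.)
-/

set_option autoImplicit false

namespace Pool.Agent.Results.MP_938ce2_ag.OneExplicitPowerCM

open NumberField Module Pool.Agent.U173.TT Pool.Agent.H204R3.CM
open Pool.Agent.H977R3.CM (HodgeGenerated)
open Pool.Agent.W546.GHC (Separated)

theorem result {ι : Type} [Fintype ι] [Nonempty ι] {E : ι → Type} [∀ i, Field (E i)]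
    [∀ i, NumberField (E i)] [∀ i, IsCMField (E i)] {Φ : ∀ i, Set (E i →+* ℂ)}
    (hΦ : ∀ i, IsCMType (Φ i)) (hsep : Separated Φ) :
    (∀ (J : Type) [Fintype J] (t : J → ι),
      (HodgeGenerated (per Φ t) ↔ OnlyTrivialTypeRelations Φ (mul t)) ∧
      TateIff Φ t (OnlyTrivialTypeRelations Φ (mul t)) ∧
      ReductionIff Φ t (OnlyTrivialTypeRelations Φ (mul t))) ∧
    ∀ g N : ℕ, ∑ i, finrank ℚ (E i) = 2 * g → (g - 1) ^ (g - 1) < 4 ^ (g - 2) * (N + 1) ^ 2 →
      (OnlyTrivialTypeRelations Φ (fun _ => N) → ∀ b : ι → ℕ, OnlyTrivialTypeRelations Φ b) ∧
      ∀ (J : Type) [Fintype J] (t : J → ι), (∀ i, N ≤ mul t i) → TateOnce Φ t →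
        ∀ (J' : Type) [Fintype J'] (t' : J' → ι), TateIff Φ t' True := by
  classical
  have hmult : ∀ (J : Type) [Fintype J] (t : J → ι), mul t = Pool.Agent.N90.HG.mult t := by
    intro J _ t
    funext i
    unfold mul Pool.Agent.N90.HG.mult
    rw [Nat.card_eq_fintype_card, Fintype.card_subtype]
  refine ⟨fun J _ t => ⟨?_, ?_, ?_⟩, fun g N hg hN => ?_⟩
  · rw [hmult J t]
    exact crit_hodge hΦ hsep t
  · intro ℓ _ Γ _ _ _ ρ χ h
    rw [hmult J t]
    exact crit_tate hΦ hsep ℓ ρ χ h t
  · intro p _ π h K _ _
    rw [hmult J t]
    exact crit_red hΦ hsep p π h K t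
  · have hshort : OnlyTrivialTypeRelations Φ (fun _ => N) →
        ∀ b : ι → ℕ, OnlyTrivialTypeRelations Φ b :=
      fun h b n hn _ i φ => short_type hΦ hg hN h n hn i φ
    refine ⟨hshort, ?_⟩
    intro J _ t ht hone J' _ t' ℓ' _ Γ' _ _ _ ρ' χ' hρ'
    obtain ⟨ℓ, _, Γ, _, _, _, ρ, χ, hρ, h⟩ := hone
    have h := (crit_tate hΦ hsep ℓ ρ χ hρ t).1 h
    refine ⟨fun _ => trivial, fun _ => (crit_tate hΦ hsep ℓ' ρ' χ' hρ' t').2 ?_⟩
    refine hshort (fun n hn hle => h n hn fun i φ => (hle i φ).trans ?_) _
    have h1 := ht i
    rw [show mul t i = Pool.Agent.N90.HG.mult t i from congrFun (hmult J t) i] at h1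
    exact_mod_cast h1

end Pool.Agent.Results.MP_938ce2_ag.OneExplicitPowerCM
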