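import Pool.Agent.U128.ZO.Tate

/-!
# Tate classes and Hodge classes on powers: a zero-one law

Let `X` be a smooth projective variety over an algebraically closed field `k` of characteristic zero
with an embedding into the complex numbers (the algebraic closure of a number field), with nonzero
cohomology. A Tate class is a class in the `ℓ`-adic cohomology which is fixed, up to the Tate twist, by a
subgroup of finite index of the Galois group. The Tate conjecture predicts that the Tate classes are
`ℚ_ℓ`-linear combinations of algebraic classes; then they are in particular `ℚ_ℓ`-linear combinations of
Hodge classes. This is not known (it is half of the Mumford-Tate conjecture).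

**Theorem.** The density of the Hodge classes among the Tate classes on the powers of `X` exists and
is `1 / N` with `N ∈ {1, 2, …, ∞}`: the quotient of the dimension of the `ℚ_ℓ`-space spanned by the
Tate classes on `X ^ n` and the dimension of the space spanned by the rational classes which are
Hodge classes and Tate classes converges to `N`. If `N` is finite, then all Tate classes on all powers of
`X` are `ℚ_ℓ`-linear combinations of Hodge classes.

So, if one Tate class on one power of `X` is not a linear combination of Hodge classes, then the
density is zero; in particular the algebraic classes have density zero among the Tate classes on the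
powers of `X`. In other words: if the dimension of the space of the algebraic classes is at least
`ε` times the dimension of the space of the Tate classes on infinitely many powers of `X`, for some
`ε > 0`, then all Tate classes on all powers of `X` are linear combinations of Hodge classes (see
`Pool.Agent.U128.ZO.Tate.hodge_of_density`). No semisimplicity of the Galois representations is
assumed.

The proof. The classes which are Hodge classes and Tate classes form a system of rational classes
which is stable under products, pull-backs and push-forwards and nondegenerate by the Hodge-Riemann
relations; the index law for nondegenerate systems (library) is applied to the extension of this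
system to `ℚ_ℓ` and the system of the Tate classes. If the index is finite, the Tate classes are
generated by finitely many of them. For every embedding `ℚ_ℓ → ℂ` the operator which acts on
`H^(p,q)` as `2 ^ (p - q)` fixes the classes of the smaller system, so it satisfies one polynomial
relation on all Tate classes, and the external powers of a Tate class show that it fixes all Tate
classes. As this is true for all embeddings, the Tate classes are combinations of Hodge classes.

Here `T` is a Hodge theory, `L = ℚ_ℓ`, and `pw X n` is the product of `n + 1` copies of `X`;
`HasIndex t s N` says that the quotients `t n / s n` converge to `N ∈ ℕ ∪ {∞}`.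
-/

set_option autoImplicit false

open CategoryTheory AlgebraicGeometry

universe u

namespace Pool.Agent.Results.MP_938ce2_ag.ZeroOneLaw

open Pool.Agent.H914 Pool.Agent.H914.VarClass Pool.Agent.H914.VarClass.Obj
  Pool.Agent.H914.WeilCohomology
open Pool.Agent.Y121.AHS
open Pool.Agent.Y133.Half (pw HasIndex algDim)
open Pool.Agent.U128.ZO.Tate

/-- **The zero-one law for the Tate classes.** -/
theorem result {k : Type u} [Field k] {𝒱 : VarClass k} {ops : CycleOps 𝒱} (T : HodgeTheory ops)
    {L : Type} [Field L] [Algebra T.W.K L] (hL : Nonempty (L →+* ℂ)) (G : GaloisAction T.W L)
    (X : 𝒱.Obj) (hX : Nontrivial (T.W.H X)) :
    (∃ N : ℕ∞, 1 ≤ N ∧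
      HasIndex (fun n => tateDim G (pw X n)) (fun n => hodgeTateDim T G (pw X n)) N ∧
      (N ≠ ⊤ → TateAreHodge T G X)) ∧
    (¬ TateAreHodge T G X →
      HasIndex (fun n => tateDim G (pw X n)) (fun n => algDim T.W (pw X n)) ⊤) :=
  hL.elim fun τ => ⟨index G τ X, alg_top G τ X⟩

end Pool.Agent.Results.MP_938ce2_ag.ZeroOneLaw
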